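import Pool.Agent.Helper24.KK.GoalsB
import Mathlib.LinearAlgebra.Matrix.Gershgorin

/-!
# Project KK, packet EIG: eigenvalues are bounded by the row sums
-/

set_option autoImplicit false

namespace Pool.Agent.Helper17.KK

open Finset Matrix
open Pool.Agent.Helper24.KK

theorem eig : EIG := by
  intro d _ _ H hH δ hrow i
  set w : d → ℂ := ⇑(hH.eigenvectorBasis i) with hw
  have he : H *ᵥ w = hH.eigenvalues i • w := hH.mulVec_eigenvectorBasis i
  have hw0 : w ≠ 0 := by
    intro h0
    have h1 : hH.eigenvectorBasis i = 0 := by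
      apply (WithLp.equiv 2 (d → ℂ)).injective
      exact h0
    have h2 := hH.eigenvectorBasis.orthonormal.1 i
    rw [h1, norm_zero] at h2
    exact zero_ne_one h2
  have hne : Nonempty d := ⟨i⟩
  obtain ⟨k, -, hk⟩ := Finset.exists_max_image univ (fun j => ‖w j‖) ⟨i, mem_univ i⟩
  have hk0 : 0 < ‖w k‖ := by
    rcases (norm_nonneg (w k)).lt_or_eq with h | h
    · exact h
    · exfalso
      apply hw0
      funext j
      have := hk j (mem_univ j)
      rw [← h] at this
      exact norm_le_zero_iff.1 this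
  have h1 : |hH.eigenvalues i| * ‖w k‖ ≤ δ * ‖w k‖ := by
    have e := congrFun he k
    have e2 : ‖(H *ᵥ w) k‖ = |hH.eigenvalues i| * ‖w k‖ := by
      rw [e, Pi.smul_apply, norm_smul, Real.norm_eq_abs]
    rw [← e2]
    calc ‖(H *ᵥ w) k‖ = ‖∑ j, H k j * w j‖ := by rw [mulVec, dotProduct]
      _ ≤ ∑ j, ‖H k j * w j‖ := norm_sum_le _ _
      _ ≤ ∑ j, ‖H k j‖ * ‖w k‖ := by
          refine Finset.sum_le_sum fun j _ => ?_
          rw [norm_mul]
          exact mul_le_mul_of_nonneg_left (hk j (mem_univ j)) (norm_nonneg _)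
      _ = (∑ j, ‖H k j‖) * ‖w k‖ := by rw [Finset.sum_mul]
      _ ≤ δ * ‖w k‖ := mul_le_mul_of_nonneg_right (hrow k) (norm_nonneg _)
  exact le_of_mul_le_mul_right h1 hk0

end Pool.Agent.Helper17.KK
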